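import Mathlib
import Pool.Agent.R204.A.Lower

set_option autoImplicit false

/-!
# The exact value of `d^W_min(𝒫)` and the bound `d^W_min(𝒫) ≤ |𝒫| - 1`

For an essentially distinct family `𝒫 ⊂ ℤ[t]` with `|𝒫| ≥ 2` the number `d^W_min(𝒫)` is computed exactly:
it is the maximum of `1` and of the largest degree of a polynomial `Q_p` in an algebraic relation
`Q₀(x) + ∑_{p ∈ 𝒫} Q_p(x + p(y)) = 0`, `Q₀, Q_p ∈ ℚ[t]`.  This degree is at most `|𝒫| - 1`, which answers
the question of the problem affirmatively.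

The definitions (`hk`, `IsHKFactor`, `polyAvg`, `IsCharacteristic`, `EssentiallyDistinct`, `WeylSystem`, `haarT`)
are in `Pool/Agent/H767R2/Defs.lean`, `dWMin` is in `Pool/Agent/H767R2/Defs2.lean`, and `IsRelation`,
`relDegree` are at the beginning of `Pool/Agent/R204/A/Lower.lean`.
-/

namespace Pool.Agent.Results.MP_467fc0_an.ExactWeylDegree

open Pool.Agent.H767R2 Pool.Agent.R204.A MeasureTheory Filter Topology Polynomial
open scoped ENNReal

/-- Let `P ⊂ ℤ[t]` be an essentially distinct family with at least two elements.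
* `d^W_min(P) ≤ |P| - 1`;
* `d^W_min(P) = max(1, r(P))`, where `r(P) = relDegree P` is the largest degree of a polynomial `Q_p`,
  `p ∈ P`, in an algebraic relation `Q₀(x) + ∑_{p ∈ P} Q_p(x + p(y)) = 0` with rational polynomials;
* every such relation has `deg Q_p ≤ |P| - 1`, and the largest degree `r(P)` is attained;
* for every `d ≥ max(1, r(P))` and every Weyl system the Host–Kra factor `𝒵_d` exists and is
  characteristic for the averages of the family `P`;
* for every `d < max(1, r(P))` there is a Weyl system for which `𝒵_d` exists and is not characteristic. -/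
theorem result (P : Finset ℤ[X]) (hP : EssentiallyDistinct P) (h2 : 2 ≤ P.card) :
    dWMin P ≤ ((P.card - 1 : ℕ) : ℕ∞) ∧
    dWMin P = ((max 1 (relDegree P) : ℕ) : ℕ∞) ∧
    (∀ (Q₀ : ℚ[X]) (Q : ℤ[X] → ℚ[X]), IsRelation P Q₀ Q → ∀ p ∈ P,
      (Q p).natDegree ≤ relDegree P ∧ (Q p).natDegree ≤ P.card - 1) ∧
    (∃ (Q₀ : ℚ[X]) (Q : ℤ[X] → ℚ[X]), IsRelation P Q₀ Q ∧ ∃ p ∈ P, (Q p).natDegree = relDegree P) ∧
    (∀ d : ℕ, max 1 (relDegree P) ≤ d → ∀ W : WeylSystem,
      (∃ 𝒵 : MeasurableSpace (Fin W.D → UnitAddCircle), IsHKFactor 𝒵 (haarT W.D) W.T d) ∧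
      ∀ 𝒵 : MeasurableSpace (Fin W.D → UnitAddCircle),
        IsHKFactor 𝒵 (haarT W.D) W.T d → IsCharacteristic 𝒵 (haarT W.D) W.T P) ∧
    (∀ d : ℕ, d < max 1 (relDegree P) → ∃ W : WeylSystem,
      (∃ 𝒵 : MeasurableSpace (Fin W.D → UnitAddCircle), IsHKFactor 𝒵 (haarT W.D) W.T d) ∧
      ∀ 𝒵 : MeasurableSpace (Fin W.D → UnitAddCircle),
        IsHKFactor 𝒵 (haarT W.D) W.T d → ¬ IsCharacteristic 𝒵 (haarT W.D) W.T P) := by
  have hle : max 1 (relDegree P) ≤ P.card - 1 := max_le (by omega) (relDegree_le P hP)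
  refine ⟨?_, dWMin_eq P hP h2, fun Q₀ Q h p hp =>
    ⟨natDegree_le_relDegree P hP h p hp, relation_le P hP h p hp⟩,
    exists_relDegree P hP (Finset.card_pos.mp (by omega)), fun d hd W =>
    ⟨W.exists_hkFactor d, fun 𝒵 h𝒵 => char_of_le P hP d hd W 𝒵 h𝒵⟩, fun d hd => ?_⟩
  · rw [dWMin_eq P hP h2]
    exact_mod_cast hle
  · obtain ⟨W, hW⟩ := not_char_of_lt P hP h2 d hd
    exact ⟨W, W.exists_hkFactor d, hW⟩

end Pool.Agent.Results.MP_467fc0_an.ExactWeylDegree
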